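import Pool.Agent.Q187.PJ.Ser

/-!
# Arithmetic progressions in the set
-/

set_option autoImplicit false

open Set Filter Topology MeasureTheory ENNReal

namespace Pool.Agent.Q187.PJ

/-- `N_r(E) ≤ n`: the set `E` is covered by at most `n` sets of diameter at most `r`. -/
def CovBy {X : Type} [MetricSpace X] (n r : ℝ) (E : Set X) : Prop :=
  ∃ 𝒰 : Finset (Set X), (𝒰.card : ℝ) ≤ n ∧ (∀ U ∈ 𝒰, Metric.ediam U ≤ ENNReal.ofReal r) ∧
    E ⊆ ⋃ U ∈ 𝒰, U

/-- The digit. -/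
noncomputable def al : ℝ := ∑' i : ℕ, (1 / 100 : ℝ) ^ (2 ^ i)

lemma pow_two_ge (i : ℕ) : i + 1 ≤ 2 ^ i := by
  induction i with
  | zero => norm_num
  | succ i ih => rw [pow_succ]; omega

lemma al_summable : Summable fun i : ℕ => (1 / 100 : ℝ) ^ (2 ^ i) := by
  refine Summable.of_norm_bounded (geo_hasSum 1).summable fun i => ?_
  rw [Real.norm_of_nonneg (by positivity), one_mul]
  exact pow_le_pow_of_le_one (by norm_num) (by norm_num) (pow_two_ge i)

/-- The integral part of `100 ^ 2 ^ (a + 1) * al`. -/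
noncomputable def AA (a : ℕ) : ℝ := ∑ i ∈ Finset.range (a + 1), (100 : ℝ) ^ (2 ^ (a + 1) - 2 ^ i)

lemma theta (a : ℕ) : 1 ≤ 100 ^ (2 ^ (a + 1)) * al - AA a ∧
    100 ^ (2 ^ (a + 1)) * al - AA a ≤ 2 := by
  have h1 : 100 ^ (2 ^ (a + 1)) * al - AA a =
      ∑' i : ℕ, (1 / 100 : ℝ) ^ (2 ^ (i + (a + 1)) - 2 ^ (a + 1)) := by
    unfold al AA
    rw [← al_summable.sum_add_tsum_nat_add (a + 1), mul_add, Finset.mul_sum, ← tsum_mul_left]
    have e1 : ∑ i ∈ Finset.range (a + 1), (100 : ℝ) ^ 2 ^ (a + 1) * (1 / 100) ^ 2 ^ i =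
        ∑ i ∈ Finset.range (a + 1), (100 : ℝ) ^ (2 ^ (a + 1) - 2 ^ i) := by
      refine Finset.sum_congr rfl fun i hi => ?_
      rw [Finset.mem_range] at hi
      have h2 : 2 ^ i ≤ 2 ^ (a + 1) := Nat.pow_le_pow_right (by norm_num) (by omega)
      rw [pow_sub₀ _ (by norm_num) h2, one_div, inv_pow]
    rw [e1, add_sub_cancel_left]
    congr 1
    funext i
    have h2 : 2 ^ (a + 1) ≤ 2 ^ (i + (a + 1)) := Nat.pow_le_pow_right (by norm_num) (by omega)
    rw [pow_sub₀ _ (by norm_num) h2, one_div, inv_pow, inv_pow, inv_inv, mul_comm]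
  have hterm : ∀ i : ℕ, (1 / 100 : ℝ) ^ (2 ^ (i + (a + 1)) - 2 ^ (a + 1)) ≤ (1 / 100) ^ i := by
    intro i
    refine pow_le_pow_of_le_one (by norm_num) (by norm_num) ?_
    have h2 := pow_two_ge i
    have h3 : 2 ^ (i + (a + 1)) = 2 ^ i * 2 ^ (a + 1) := pow_add _ _ _
    have h4 : 1 ≤ 2 ^ (a + 1) := Nat.one_le_two_pow
    have h5 : (i + 1) * 2 ^ (a + 1) ≤ 2 ^ i * 2 ^ (a + 1) := Nat.mul_le_mul_right _ h2
    have h6 : i * 1 ≤ i * 2 ^ (a + 1) := Nat.mul_le_mul_left _ h4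
    rw [h3]
    rw [add_mul] at h5
    omega
  have hs : HasSum (fun i : ℕ => (1 / 100 : ℝ) ^ i) (1 - 1 / 100)⁻¹ :=
    hasSum_geometric_of_lt_one (by norm_num) (by norm_num)
  have hsum : Summable fun i : ℕ => (1 / 100 : ℝ) ^ (2 ^ (i + (a + 1)) - 2 ^ (a + 1)) :=
    Summable.of_norm_bounded hs.summable fun i => by
      rw [Real.norm_of_nonneg (by positivity)]; exact hterm i
  rw [h1]
  constructor
  · have h2 := hsum.le_tsum 0 (fun i _ => by positivity)
    simpa using h2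
  · have h2 := hsum.tsum_le_tsum hterm hs.summable
    rw [hs.tsum_eq] at h2
    norm_num at h2 ⊢
    linarith

variable {X : Type} [NormedAddCommGroup X] [NormedSpace ℝ X] [CompleteSpace X]

/-- The digits with prescribed positions. -/
def wST (S T : Finset ℕ) (n : ℕ) : Fin 6 :=
  if n ∈ S then (if n ∈ T then 3 else 1) else (if n ∈ T then 2 else 0)

lemma pt_ST {a : Fin 6 → X} {z : X} (h0 : a 0 = 0) (h1 : a 1 = z) (h2 : a 2 = al • z)
    (h3 : a 3 = (1 + al) • z) (S T : Finset ℕ) :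
    pt a (wST S T) = ((∑ n ∈ S, (1 / 100 : ℝ) ^ (n + 1)) +
      al * ∑ n ∈ T, (1 / 100 : ℝ) ^ (n + 1)) • z := by
  have e : ∀ n, ((1 / 100 : ℝ)) ^ (n + 1) • a (wST S T n) =
      ((if n ∈ S then (1 / 100 : ℝ) ^ (n + 1) else 0) +
        al * (if n ∈ T then (1 / 100 : ℝ) ^ (n + 1) else 0)) • z := by
    intro n
    unfold wST
    by_cases hS : n ∈ S <;> by_cases hT : n ∈ T
    · simp only [hS, hT, if_true, h3, smul_smul]
      congr 1; ring
    · simp only [hS, hT, if_true, if_false, h1]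
      congr 1; ring
    · simp only [hS, hT, if_true, if_false, h2, smul_smul]
      congr 1; ring
    · simp only [hS, hT, if_false, h0, smul_zero, mul_zero, add_zero, zero_smul]
  unfold pt
  rw [tsum_congr e, tsum_eq_sum (s := S ∪ T) (by
    intro n hn
    rw [Finset.mem_union, not_or] at hn
    rw [if_neg hn.1, if_neg hn.2, mul_zero, add_zero, zero_smul])]
  rw [← Finset.sum_smul, Finset.sum_add_distrib, ← Finset.mul_sum, Finset.sum_ite_mem,
    Finset.sum_ite_mem, Finset.union_inter_cancel_left, Finset.union_inter_cancel_right]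

lemma pow_inj {a b i j : ℕ} (hi : i ≤ a) (hj : j ≤ b)
    (h : 2 ^ (a + 1) - 2 ^ i = 2 ^ (b + 1) - 2 ^ j) : a = b ∧ i = j := by
  have key : ∀ a b i j : ℕ, i ≤ a → j ≤ b → 2 ^ (a + 1) - 2 ^ i = 2 ^ (b + 1) - 2 ^ j →
      ¬ a < b := by
    intro a b i j hi hj h hab
    have h1 : 2 ^ (a + 1) ≤ 2 ^ b := Nat.pow_le_pow_right (by norm_num) hab
    have h2 : 2 ^ j ≤ 2 ^ b := Nat.pow_le_pow_right (by norm_num) hj
    have h3 : 2 ^ (b + 1) = 2 * 2 ^ b := by rw [pow_succ]; ring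
    have h4 : 0 < 2 ^ i := by positivity
    have h5 : 2 ^ i ≤ 2 ^ (a + 1) := Nat.pow_le_pow_right (by norm_num) (by omega)
    omega
  have h1 := key a b i j hi hj h
  have h2 := key b a j i hj hi h.symm
  have h3 : a = b := by omega
  subst h3
  refine ⟨rfl, ?_⟩
  have h4 : 2 ^ i ≤ 2 ^ (a + 1) := Nat.pow_le_pow_right (by norm_num) (by omega)
  have h5 : 2 ^ j ≤ 2 ^ (a + 1) := Nat.pow_le_pow_right (by norm_num) (by omega)
  have h6 : 2 ^ i = 2 ^ j := by omega
  exact Nat.pow_right_injective (le_refl 2) h6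

/-- The coordinates of the points of the progression. -/
noncomputable def xx (L m : ℕ) : ℝ := (1 / 100 : ℝ) ^ (2 ^ L + 1) *
  ((∑ a ∈ Finset.Ico m L, AA a) + ∑ a ∈ Finset.range m, 100 ^ (2 ^ (a + 1)) * al)

lemma xx_mem {a : Fin 6 → X} {z : X} (h0 : a 0 = 0) (h1 : a 1 = z) (h2 : a 2 = al • z)
    (h3 : a 3 = (1 + al) • z) {L m : ℕ} (hm : m ≤ L) : xx L m • z ∈ At a := by
  have hE : ∀ b < L, 2 ^ (b + 1) ≤ 2 ^ L := fun b hb => Nat.pow_le_pow_right (by norm_num) hb
  obtain ⟨E, hEE⟩ : ∃ E, E = 2 ^ L + 1 := ⟨_, rfl⟩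
  have hq : ∀ k, k + 1 ≤ E → (1 / 100 : ℝ) ^ (E - k - 1 + 1) = (1 / 100) ^ E * 100 ^ k := by
    intro k hk
    rw [show E - k - 1 + 1 = E - k by omega, pow_sub₀ _ (by norm_num) (by omega)]
    congr 1
    rw [one_div, inv_pow, inv_inv]
  have hT : ∑ n ∈ (Finset.range m).image (fun b => E - 2 ^ (b + 1) - 1),
      (1 / 100 : ℝ) ^ (n + 1) = (1 / 100) ^ E * ∑ b ∈ Finset.range m, 100 ^ (2 ^ (b + 1)) := by
    rw [Finset.sum_image]
    · rw [Finset.mul_sum]
      refine Finset.sum_congr rfl fun b hb => ?_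
      rw [Finset.mem_range] at hb
      have := hE b (by omega)
      exact hq _ (by omega)
    · intro b hb b' hb' h
      rw [Finset.mem_coe, Finset.mem_range] at hb hb'
      have h1 := hE b (by omega)
      have h2 := hE b' (by omega)
      simp only at h
      have h3 : 2 ^ (b + 1) = 2 ^ (b' + 1) := by omega
      have h4 := Nat.pow_right_injective (le_refl 2) h3
      omega
  have hS : ∑ n ∈ ((Finset.Ico m L).sigma (fun b => Finset.range (b + 1))).image
      (fun x => E - (2 ^ (x.1 + 1) - 2 ^ x.2) - 1), (1 / 100 : ℝ) ^ (n + 1) =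
      (1 / 100) ^ E * ∑ b ∈ Finset.Ico m L, AA b := by
    rw [Finset.sum_image]
    · rw [Finset.sum_sigma, Finset.mul_sum]
      refine Finset.sum_congr rfl fun b hb => ?_
      unfold AA
      rw [Finset.mul_sum]
      refine Finset.sum_congr rfl fun i hi => ?_
      rw [Finset.mem_Ico] at hb
      have h4 := hE b hb.2
      have h5 := Nat.sub_le (2 ^ (b + 1)) (2 ^ i)
      exact hq (2 ^ (b + 1) - 2 ^ i) (by omega)
    · rintro ⟨b, i⟩ hb ⟨b', i'⟩ hb' h
      rw [Finset.mem_coe, Finset.mem_sigma, Finset.mem_Ico, Finset.mem_range] at hb hb'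
      simp only at h hb hb'
      have h1 := hE b hb.1.2
      have h2 := hE b' hb'.1.2
      have h3 : 2 ^ (b + 1) - 2 ^ i = 2 ^ (b' + 1) - 2 ^ i' := by
        have h6 := Nat.sub_le (2 ^ (b + 1)) (2 ^ i)
        have h7 := Nat.sub_le (2 ^ (b' + 1)) (2 ^ i')
        obtain ⟨p, hp⟩ : ∃ p, p = 2 ^ (b + 1) - 2 ^ i := ⟨_, rfl⟩
        obtain ⟨p', hp'⟩ : ∃ p', p' = 2 ^ (b' + 1) - 2 ^ i' := ⟨_, rfl⟩
        rw [← hp, ← hp'] at h
        rw [← hp] at h6
        rw [← hp'] at h7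
        rw [← hp, ← hp']
        omega
      obtain ⟨h4, h5⟩ := pow_inj (by omega) (by omega) h3
      subst h4; subst h5; rfl
  refine ⟨wST (((Finset.Ico m L).sigma (fun b => Finset.range (b + 1))).image
      (fun x => E - (2 ^ (x.1 + 1) - 2 ^ x.2) - 1))
    ((Finset.range m).image (fun b => E - 2 ^ (b + 1) - 1)), ?_⟩
  rw [pt_ST h0 h1 h2 h3, hT, hS]
  congr 1
  unfold xx
  rw [← hEE, ← Finset.sum_mul]
  ring

lemma xx_step {L m : ℕ} (hm : m < L) : xx L (m + 1) - xx L m =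
    (1 / 100 : ℝ) ^ (2 ^ L + 1) * (100 ^ (2 ^ (m + 1)) * al - AA m) := by
  unfold xx
  rw [Finset.sum_range_succ, ← Finset.sum_Ico_consecutive AA (Nat.le_succ m) hm]
  have e : Finset.Ico m m.succ = {m} := by
    ext i; rw [Finset.mem_Ico, Finset.mem_singleton]; omega
  rw [e, Finset.sum_singleton]
  ring

lemma xx_mono {L m k : ℕ} (h : m + k ≤ L) :
    k * (1 / 100 : ℝ) ^ (2 ^ L + 1) ≤ xx L (m + k) - xx L m ∧
      xx L (m + k) - xx L m ≤ 2 * k * (1 / 100 : ℝ) ^ (2 ^ L + 1) := by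
  induction k with
  | zero => simp
  | succ k ih =>
    obtain ⟨h1, h2⟩ := ih (by omega)
    have h3 := xx_step (L := L) (m := m + k) (by omega)
    obtain ⟨h4, h5⟩ := theta (m + k)
    have hd : (0 : ℝ) < (1 / 100 : ℝ) ^ (2 ^ L + 1) := by positivity
    obtain ⟨d, hdd⟩ : ∃ d, d = (1 / 100 : ℝ) ^ (2 ^ L + 1) := ⟨_, rfl⟩
    rw [← hdd] at h1 h2 h3 hd ⊢
    have h6 := mul_le_mul_of_nonneg_left h4 hd.le
    have h7 := mul_le_mul_of_nonneg_left h5 hd.le
    rw [← add_assoc]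
    push_cast
    constructor <;> nlinarith

/-- The Assouad dimension is at least one. -/
theorem low {a : Fin 6 → X} {z : X} (hz : z ≠ 0) (h0 : a 0 = 0) (h1 : a 1 = z)
    (h2 : a 2 = al • z) (h3 : a 3 = (1 + al) • z) {s C : ℝ}
    (h : ∀ R > 0, ∀ r, 0 < r → r < R → ∀ x ∈ At a,
      CovBy (C * (R / r) ^ s) r (Metric.ball x R ∩ At a)) : 1 ≤ s := by
  by_contra hs
  push Not at hs
  have key : ∀ L : ℕ, (L + 1 : ℝ) ≤ C * (4 * L + 2) ^ s := by
    intro L
    obtain ⟨d, hdd⟩ : ∃ d, d = (1 / 100 : ℝ) ^ (2 ^ L + 1) := ⟨_, rfl⟩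
    have hd : 0 < d := by rw [hdd]; positivity
    have hz0 : 0 < ‖z‖ := norm_pos_iff.mpr hz
    have hdist : ∀ m k, m + k ≤ L → k * (d * ‖z‖) ≤ dist (xx L (m + k) • z) (xx L m • z) ∧
        dist (xx L (m + k) • z) (xx L m • z) ≤ 2 * k * (d * ‖z‖) := by
      intro m k hmk
      obtain ⟨h4, h5⟩ := xx_mono hmk
      rw [← hdd] at h4 h5
      rw [dist_eq_norm, ← sub_smul, norm_smul, Real.norm_of_nonneg (le_trans (by positivity) h4)]
      constructor
      · rw [← mul_assoc]; exact mul_le_mul_of_nonneg_right h4 hz0.le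
      · rw [← mul_assoc]; exact mul_le_mul_of_nonneg_right h5 hz0.le
    have hdz : 0 < d * ‖z‖ := by positivity
    obtain ⟨𝒰, hc, hd2, hsub⟩ := h ((2 * L + 1) * (d * ‖z‖)) (by positivity) (d * ‖z‖ / 2)
      (by positivity) (by
        have : (0 : ℝ) ≤ L := Nat.cast_nonneg L
        nlinarith) _ (xx_mem h0 h1 h2 h3 (Nat.zero_le L))
    have e : (2 * (L : ℝ) + 1) * (d * ‖z‖) / (d * ‖z‖ / 2) = 4 * L + 2 := by
      field_simp; ring
    rw [e] at hc
    refine le_trans ?_ hc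
    have hmem : ∀ m, m ≤ L → ∃ U ∈ 𝒰, xx L m • z ∈ U := by
      intro m hm
      have h4 : xx L m • z ∈ ⋃ U ∈ 𝒰, U := by
        refine hsub ⟨?_, xx_mem h0 h1 h2 h3 hm⟩
        rw [Metric.mem_ball]
        have h5 := (hdist 0 m (by omega)).2
        rw [zero_add] at h5
        refine h5.trans_lt ?_
        have h6 : (m : ℝ) ≤ L := by exact_mod_cast hm
        nlinarith
      rw [mem_iUnion₂] at h4
      obtain ⟨U, hU, hx⟩ := h4
      exact ⟨U, hU, hx⟩
    choose! F hF1 hF2 using hmem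
    have h4 : (Finset.range (L + 1)).card ≤ 𝒰.card := by
      refine Finset.card_le_card_of_injOn F ?_ ?_
      · intro m hm
        rw [Finset.mem_coe, Finset.mem_range] at hm
        exact hF1 m (by omega)
      · have hlt : ∀ m m', m < m' → m' ≤ L → F m ≠ F m' := by
          intro m m' hmm hm' heq
          obtain ⟨k, rfl⟩ : ∃ k, m' = m + k := ⟨m' - m, by omega⟩
          have h5 := (hdist m k hm').1
          have h6 := hF2 m (by omega)
          have h7 := hF2 (m + k) hm'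
          rw [← heq] at h7
          have h8 := (Metric.edist_le_ediam_of_mem h7 h6).trans (hd2 _ (hF1 m (by omega)))
          rw [edist_dist, ENNReal.ofReal_le_ofReal_iff (by positivity)] at h8
          have h9 : (1 : ℝ) ≤ k := by exact_mod_cast (by omega : 1 ≤ k)
          nlinarith
        intro m hm m' hm' heq
        rw [Finset.mem_coe, Finset.mem_range] at hm hm'
        rcases Nat.lt_trichotomy m m' with h5 | h5 | h5
        · exact absurd heq (hlt m m' h5 (by omega))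
        · exact h5
        · exact absurd heq.symm (hlt m' m h5 (by omega))
    rw [Finset.card_range] at h4
    exact_mod_cast h4
  -- growth
  have htend : Tendsto (fun L : ℕ => (4 * (L : ℝ) + 2) ^ (1 - s)) atTop atTop := by
    refine (tendsto_rpow_atTop (by linarith)).comp ?_
    refine tendsto_atTop_mono (fun L => ?_) tendsto_natCast_atTop_atTop
    have : (0 : ℝ) ≤ L := Nat.cast_nonneg L
    linarith
  obtain ⟨L, hL⟩ := (htend.eventually_gt_atTop (4 * C)).exists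
  have h4 := key L
  have hL0 : (0 : ℝ) ≤ L := Nat.cast_nonneg L
  have h5 : (4 * (L : ℝ) + 2) ^ (1 - s) * (4 * L + 2) ^ s = 4 * L + 2 := by
    rw [← Real.rpow_add (by linarith)]
    simp
  have h6 : 0 < (4 * (L : ℝ) + 2) ^ s := Real.rpow_pos_of_pos (by linarith) _
  have h7 : 4 * C * (4 * (L : ℝ) + 2) ^ s < 4 * L + 2 :=
    (mul_lt_mul_of_pos_right hL h6).trans_eq h5
  nlinarith

end Pool.Agent.Q187.PJ
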