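import Pool.Agent.Q187.PJ.Ser

/-!
# The upper bound
-/

set_option autoImplicit false

open Set Filter Topology MeasureTheory ENNReal

namespace Pool.Agent.Q187.PJ

section One

variable {β : Fin 3 → ℝ}

lemma sep {g : ℝ} (hg : ∀ i j, i ≠ j → 8 / 10 ≤ |β i - β j|) (hβ : ∀ i, ‖β i‖ ≤ 21 / 10)
    {c c' : ℕ → Fin 3} {p : ℕ} (h : ∀ i < p, c i = c' i) (hp : c p ≠ c' p) :
    7 / 10 * (1 / 100) ^ (p + 1) ≤ |pt β c - pt β c'| := by
  rw [pt_split β c (p + 1), pt_split β c' (p + 1), Finset.sum_range_succ, Finset.sum_range_succ]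
  have e : (∑ i ∈ Finset.range p, (1 / 100 : ℝ) ^ (i + 1) • β (c i)) =
      ∑ i ∈ Finset.range p, (1 / 100 : ℝ) ^ (i + 1) • β (c' i) :=
    Finset.sum_congr rfl fun i hi => by rw [h i (Finset.mem_range.mp hi)]
  rw [e]
  obtain ⟨u, hu⟩ : ∃ u, u = pt β (fun i => c (i + (p + 1))) := ⟨_, rfl⟩
  obtain ⟨v, hv⟩ : ∃ v, v = pt β (fun i => c' (i + (p + 1))) := ⟨_, rfl⟩
  have h1 := pt_norm hβ (fun i => c (i + (p + 1)))
  have h2 := pt_norm hβ (fun i => c' (i + (p + 1)))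
  rw [← hu, Real.norm_eq_abs] at h1
  rw [← hv, Real.norm_eq_abs] at h2
  rw [← hu, ← hv]
  have h3 := hg _ _ hp
  simp only [smul_eq_mul]
  obtain ⟨d, hd⟩ : ∃ d, d = (1 / 100 : ℝ) ^ (p + 1) := ⟨_, rfl⟩
  have hd0 : 0 < d := by rw [hd]; positivity
  rw [← hd]
  obtain ⟨S, hS⟩ : ∃ S, S = ∑ i ∈ Finset.range p, (1 / 100 : ℝ) ^ (i + 1) * β (c' i) := ⟨_, rfl⟩
  rw [← hS]
  have e2 : S + d * β (c p) + d * u - (S + d * β (c' p) + d * v) =
      d * ((β (c p) - β (c' p)) + (u - v)) := by ring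
  rw [e2, abs_mul, abs_of_pos hd0, mul_comm]
  refine mul_le_mul_of_nonneg_left ?_ hd0.le
  have h4 : |β (c p) - β (c' p)| ≤ |(β (c p) - β (c' p)) + (u - v)| + |u - v| := by
    have := abs_sub (β (c p) - β (c' p) + (u - v)) (u - v)
    rwa [add_sub_cancel_right] at this
  have h5 : |u - v| ≤ |u| + |v| := abs_sub _ _
  norm_num at h1 h2
  linarith

lemma match_digits (hg : ∀ i j, i ≠ j → 8 / 10 ≤ |β i - β j|) (hβ : ∀ i, ‖β i‖ ≤ 21 / 10)
    {c c' : ℕ → Fin 3} {k : ℕ} (h : |pt β c - pt β c'| < 7 / 10 * (1 / 100) ^ k) :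
    ∀ i < k, c i = c' i := by
  intro i
  induction i using Nat.strong_induction_on with
  | _ i ih =>
    intro hi
    by_contra hne
    have h1 := sep (g := 0) hg hβ (fun j hj => ih j hj (by omega)) hne
    have h2 : (1 / 100 : ℝ) ^ k ≤ (1 / 100) ^ (i + 1) :=
      pow_le_pow_of_le_one (by norm_num) (by norm_num) hi
    linarith

lemma dist_digits (hβ : ∀ i, ‖β i‖ ≤ 21 / 10) {c c' : ℕ → Fin 3} {n : ℕ}
    (h : ∀ i < n, c i = c' i) : |pt β c - pt β c'| ≤ (1 / 100) ^ n / 20 := by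
  have h1 := pt_dist hβ (w := c) (w' := c') (n := n) (fun i hi => by rw [h i hi])
  rw [Real.norm_eq_abs] at h1
  refine h1.trans ?_
  have : (0 : ℝ) < (1 / 100) ^ n := by positivity
  nlinarith

end One

variable {X : Type} [NormedAddCommGroup X] [NormedSpace ℝ X] [CompleteSpace X]

/-- The Assouad dimension is at most `3 / 2`. -/
theorem upp {a : Fin 6 → X} {f g : X →L[ℝ] ℝ} {β : Fin 3 → ℝ} {κ : Fin 6 → Fin 3}
    (hg : ∀ i j, i ≠ j → 8 / 10 ≤ |β i - β j|) (hβ : ∀ i, ‖β i‖ ≤ 21 / 10)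
    (hdig : ∀ i, f (a i) = β (κ i)) (hf : ∀ y ∈ At a, ∀ y' ∈ At a, |f y - f y'| ≤ 3 * dist y y')
    (hgg : ∀ y ∈ At a, ∀ y' ∈ At a, |g y - g y'| ≤ dist y y')
    (hN : ∀ y ∈ At a, ∀ y' ∈ At a, dist y y' ≤ |f y - f y'| + 2 * |g y - g y'|)
    {R r : ℝ} (hr : 0 < r) (hrR : r < R) {x : X} (hx : x ∈ At a) :
    ∃ 𝒰 : Finset (Set X), (𝒰.card : ℝ) ≤ 510 * (R / r) ^ (3 / 2 : ℝ) ∧
      (∀ U ∈ 𝒰, Metric.ediam U ≤ ENNReal.ofReal r) ∧
      Metric.ball x R ∩ At a ⊆ ⋃ U ∈ 𝒰, U := by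
  classical
  have hR : 0 < R := hr.trans hrR
  have hfpt : ∀ w, f (pt a w) = pt β (fun n => κ (w n)) := by
    intro w
    rw [pt_map]
    unfold pt
    simp only [hdig]
  obtain ⟨k, hk1, hk2⟩ := exists_nat_pow_near_of_lt_one (x := min 1 (30 * R / 7))
    (y := (1 / 100 : ℝ)) (lt_min one_pos (by positivity)) (min_le_left _ _) (by norm_num)
    (by norm_num)
  have hq0 : (0 : ℝ) < (1 / 100) ^ k := by positivity
  obtain ⟨m, hm1, hm2⟩ := exists_nat_pow_near_of_lt_one (x := min 1 (5 * r * 100 ^ k))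
    (y := (1 / 100 : ℝ)) (lt_min one_pos (by positivity)) (min_le_left _ _) (by norm_num)
    (by norm_num)
  obtain ⟨wx, rfl⟩ := hx
  have hkR : (1 / 100 : ℝ) ^ k ≤ 430 * R := by
    have h1 := hk1.le.trans (min_le_right _ _)
    rw [pow_succ] at h1
    linarith
  have h100 : (100 : ℝ) ^ k * (1 / 100) ^ k = 1 := by
    rw [← mul_pow]; norm_num
  have hsmall : (1 / 100 : ℝ) ^ (k + (m + 1)) ≤ 5 * r := by
    have h1 := hm1.le.trans (min_le_right _ _)
    rw [pow_add]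
    calc (1 / 100 : ℝ) ^ k * (1 / 100) ^ (m + 1) ≤ (1 / 100 : ℝ) ^ k * (5 * r * 100 ^ k) :=
          mul_le_mul_of_nonneg_left h1 hq0.le
      _ = 5 * r * (100 ^ k * (1 / 100) ^ k) := by ring
      _ = 5 * r := by rw [h100, mul_one]
  have hratio : 1 < R / r := (one_lt_div hr).mpr hrR
  have hm100 : (100 : ℝ) ^ m ≤ 100 * (R / r) := by
    have h1 : (100 : ℝ) ^ m * (1 / 100) ^ m = 1 := by rw [← mul_pow]; norm_num
    rcases min_cases 1 (5 * r * 100 ^ k) with ⟨h2, -⟩ | ⟨h2, -⟩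
    · rw [h2] at hm2
      have h3 : m = 0 := by
        by_contra h4
        have h5 : (1 / 100 : ℝ) ^ m ≤ (1 / 100) ^ 1 :=
          pow_le_pow_of_le_one (by norm_num) (by norm_num) (by omega)
        norm_num at h5 hm2
        linarith
      rw [h3, pow_zero]
      linarith
    · rw [h2] at hm2
      have h3 : (100 : ℝ) ^ m * (5 * r * 100 ^ k) ≤ 1 := by
        rw [← h1]
        exact mul_le_mul_of_nonneg_left hm2 (by positivity)
      have h4 : (100 : ℝ) ^ m * (5 * r) ≤ (1 / 100) ^ k := by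
        calc (100 : ℝ) ^ m * (5 * r) = (100 : ℝ) ^ m * (5 * r * (100 ^ k * (1 / 100) ^ k)) := by
              rw [h100, mul_one]
          _ = (100 : ℝ) ^ m * (5 * r * 100 ^ k) * (1 / 100) ^ k := by ring
          _ ≤ 1 * (1 / 100) ^ k := mul_le_mul_of_nonneg_right h3 hq0.le
          _ = (1 / 100) ^ k := one_mul _
      have h5 : (100 : ℝ) ^ m * r ≤ 100 * R := by linarith
      rw [← mul_div_assoc, le_div_iff₀ hr]
      exact h5
  -- the digits of the points of the ball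
  have hdigits : ∀ w, pt a w ∈ Metric.ball (pt a wx) R → ∀ i < k, κ (w i) = κ (wx i) := by
    intro w hw
    rcases Nat.eq_zero_or_pos k with h1 | h1
    · intro i hi; omega
    · have h2 : (1 / 100 : ℝ) ^ k ≤ (1 / 100) ^ 1 :=
        pow_le_pow_of_le_one (by norm_num) (by norm_num) h1
      have h3 : 30 * R / 7 ≤ (1 / 100) ^ k := by
        rcases min_cases 1 (30 * R / 7) with ⟨h4, -⟩ | ⟨h4, -⟩
        · rw [h4] at hk2
          norm_num at h2 hk2
          linarith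
        · rwa [h4] at hk2
      have h4 := hf _ (mem_range_self w) _ (mem_range_self wx)
      rw [hfpt, hfpt] at h4
      rw [Metric.mem_ball] at hw
      exact match_digits hg hβ (c := fun n => κ (w n)) (c' := fun n => κ (wx n)) (by linarith)
  obtain ⟨J, hJ⟩ : ∃ J, J = ⌊16 * R / r⌋₊ + 1 := ⟨_, rfl⟩
  let V : ((Fin (m + 1) → Fin 3) × Fin J) → Set X := fun c =>
    {y | ∃ w, y = pt a w ∧ (∀ i < k, κ (w i) = κ (wx i)) ∧
      (∀ i : Fin (m + 1), κ (w (k + i)) = c.1 i) ∧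
      0 ≤ (g y - g (pt a wx) + R) / (r / 8) ∧
      ⌊(g y - g (pt a wx) + R) / (r / 8)⌋₊ = (c.2 : ℕ)}
  refine ⟨Finset.univ.image V, ?_, ?_, ?_⟩
  · have h1 : ((Finset.univ.image V).card : ℝ) ≤ (3 ^ (m + 1) * J : ℕ) := by
      have h2 := Finset.card_image_le (s := (Finset.univ :
        Finset ((Fin (m + 1) → Fin 3) × Fin J))) (f := V)
      rw [Finset.card_univ, Fintype.card_prod, Fintype.card_fun, Fintype.card_fin,
        Fintype.card_fin, Fintype.card_fin] at h2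
      exact_mod_cast h2
    refine h1.trans ?_
    push_cast
    have hJR : (J : ℝ) ≤ 17 * (R / r) := by
      rw [hJ]
      push_cast
      have h2 := Nat.floor_le (show 0 ≤ 16 * R / r by positivity)
      have h3 : 16 * R / r = 16 * (R / r) := by ring
      rw [h3] at h2 ⊢
      linarith
    have h10 : (10 : ℝ) ^ m ≤ 10 * Real.sqrt (R / r) := by
      have h2 : (10 : ℝ) ^ m = Real.sqrt (100 ^ m) := by
        rw [show (100 : ℝ) ^ m = (10 ^ m) ^ 2 by
          rw [← pow_mul, mul_comm m 2, pow_mul]; norm_num]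
        exact (Real.sqrt_sq (by positivity)).symm
      rw [h2]
      refine (Real.sqrt_le_sqrt hm100).trans ?_
      rw [Real.sqrt_mul (by norm_num), show (100 : ℝ) = 10 ^ 2 by norm_num,
        Real.sqrt_sq (by norm_num)]
    have h3 : (3 : ℝ) ^ (m + 1) ≤ 30 * Real.sqrt (R / r) := by
      rw [pow_succ]
      have h4 : (3 : ℝ) ^ m ≤ 10 ^ m := pow_le_pow_left₀ (by norm_num) (by norm_num) m
      linarith
    have h4 : (R / r) ^ (3 / 2 : ℝ) = Real.sqrt (R / r) * (R / r) := by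
      rw [Real.sqrt_eq_rpow]
      nth_rewrite 3 [← Real.rpow_one (R / r)]
      rw [← Real.rpow_add (by linarith)]
      norm_num
    rw [h4]
    calc (3 : ℝ) ^ (m + 1) * J ≤ (30 * Real.sqrt (R / r)) * (17 * (R / r)) :=
          mul_le_mul h3 hJR (by positivity) (by positivity)
      _ = 510 * (Real.sqrt (R / r) * (R / r)) := by ring
  · intro U hU
    rw [Finset.mem_image] at hU
    obtain ⟨c, -, rfl⟩ := hU
    refine Metric.ediam_le ?_
    rintro y ⟨w, hy, h1, h2, h3, h4⟩ y' ⟨w', hy', h1', h2', h3', h4'⟩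
    rw [edist_dist]
    apply ENNReal.ofReal_le_ofReal
    have hya : y ∈ At a := by rw [hy]; exact mem_range_self _
    have hya' : y' ∈ At a := by rw [hy']; exact mem_range_self _
    refine (hN y hya y' hya').trans ?_
    have h5 : |f y - f y'| ≤ (1 / 100) ^ (k + (m + 1)) / 20 := by
      rw [hy, hy', hfpt, hfpt]
      refine dist_digits hβ fun i hi => ?_
      rcases Nat.lt_or_ge i k with h6 | h6
      · rw [h1 i h6, h1' i h6]
      · obtain ⟨t, rfl⟩ : ∃ t, i = k + t := ⟨i - k, by omega⟩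
        rw [h2 ⟨t, by omega⟩, h2' ⟨t, by omega⟩]
    have h6 : |g y - g y'| ≤ r / 8 := by
      obtain ⟨u, hu⟩ : ∃ u, u = (g y - g (pt a wx) + R) / (r / 8) := ⟨_, rfl⟩
      obtain ⟨u', hu'⟩ : ∃ u', u' = (g y' - g (pt a wx) + R) / (r / 8) := ⟨_, rfl⟩
      rw [← hu] at h3 h4
      rw [← hu'] at h3' h4'
      have a1 := Nat.floor_le h3
      have a2 := Nat.lt_floor_add_one u
      have a3 := Nat.floor_le h3'
      have a4 := Nat.lt_floor_add_one u'
      rw [h4] at a1 a2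
      rw [h4'] at a3 a4
      have h7 : |u - u'| ≤ 1 := abs_le.mpr ⟨by linarith, by linarith⟩
      have h8 : g y - g y' = (u - u') * (r / 8) := by
        rw [hu, hu']; field_simp; ring
      rw [h8, abs_mul, abs_of_pos (by positivity : 0 < r / 8)]
      have h9 : 0 < r / 8 := by positivity
      nlinarith
    linarith
  · rintro y ⟨hy1, w, rfl⟩
    rw [mem_iUnion₂]
    have h1 := hgg _ (mem_range_self w) _ (mem_range_self wx)
    have h2 := hy1
    rw [Metric.mem_ball] at h2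
    have h3 := abs_le.mp (h1.trans h2.le)
    have h4 : 0 ≤ (g (pt a w) - g (pt a wx) + R) / (r / 8) :=
      div_nonneg (by linarith [h3.1]) (by positivity)
    have h5 : (g (pt a w) - g (pt a wx) + R) / (r / 8) ≤ 16 * R / r := by
      rw [div_le_div_iff₀ (by positivity) hr]
      nlinarith [h3.2]
    have h6 : ⌊(g (pt a w) - g (pt a wx) + R) / (r / 8)⌋₊ < J := by
      rw [hJ]
      exact Nat.lt_succ_of_le (Nat.floor_le_floor h5)
    refine ⟨V (fun i => κ (w (k + i)), ⟨_, h6⟩), Finset.mem_image_of_mem _ (Finset.mem_univ _), ?_⟩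
    exact ⟨w, rfl, hdigits w hy1, fun i => rfl, h4, rfl⟩

end Pool.Agent.Q187.PJ
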