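import Pool.Agent.Q187.PJ.Low
import Pool.Agent.Q187.PJ.Upp

/-!
# The example
-/

set_option autoImplicit false

open Set Filter Topology MeasureTheory ENNReal

namespace Pool.Agent.Q187.PJ

/-- Three-dimensional space. -/
abbrev E3 : Type := EuclideanSpace ℝ (Fin 3)

/-- The unit cube. -/
def cube : Set E3 := {x | ∀ i, 0 ≤ x i ∧ x i ≤ 1}

/-- Self-similar sets. -/
def IsSelfSimilar (F : Set E3) : Prop :=
  ∃ (ι : Type) (_ : Fintype ι) (_ : Nonempty ι) (c : ι → ℝ) (O : ι → (E3 ≃ₗᵢ[ℝ] E3)) (t : ι → E3),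
    (∀ i, 0 < c i ∧ c i < 1) ∧ (∀ i, ∀ x ∈ cube, c i • O i x + t i ∈ cube) ∧
      F.Nonempty ∧ IsCompact F ∧ F ⊆ cube ∧ F = ⋃ i, (fun x => c i • O i x + t i) '' F

/-- The Assouad dimension. -/
noncomputable def assouadDim {X : Type} [MetricSpace X] (F : Set X) : ℝ :=
  sInf {s : ℝ | 0 ≤ s ∧ ∃ C : ℝ, 0 < C ∧ ∀ R > 0, ∀ r, 0 < r → r < R → ∀ x ∈ F,
    CovBy (C * (R / r) ^ s) r (Metric.ball x R ∩ F)}

/-- The unit vectors. -/
noncomputable def ee (i : Fin 3) : E3 := EuclideanSpace.single i 1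

lemma ee_apply (i j : Fin 3) : ee i j = if j = i then 1 else 0 := by
  unfold ee
  rw [PiLp.single_apply]

/-- The digits. -/
noncomputable def dg : Fin 6 → E3 :=
  ![0, ee 0, al • ee 0, (1 + al) • ee 0, ee 1, ee 2]

lemma al_nonneg : 0 ≤ al := tsum_nonneg fun i => by positivity

lemma al_le : al ≤ 1 := by
  unfold al
  have h := al_summable.tsum_le_tsum (g := fun i : ℕ => 1 * (1 / 100 : ℝ) ^ (i + 1)) (fun i => by
    rw [one_mul]
    exact pow_le_pow_of_le_one (by norm_num) (by norm_num) (pow_two_ge i)) (geo_hasSum 1).summable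
  rw [(geo_hasSum 1).tsum_eq] at h
  norm_num at h ⊢
  linarith

lemma dg_coord (i : Fin 6) (j : Fin 3) : 0 ≤ dg i j ∧ dg i j ≤ 2 := by
  have h1 := al_nonneg
  have h2 := al_le
  fin_cases i <;> fin_cases j <;> simp [dg, ee_apply] <;> (try constructor) <;> (try linarith)

/-- The coordinate as a continuous linear map. -/
noncomputable def co (j : Fin 3) : E3 →L[ℝ] ℝ := EuclideanSpace.proj j

lemma co_apply (j : Fin 3) (x : E3) : co j x = x j := rfl

lemma At_coord (j : Fin 3) {x : E3} (hx : x ∈ At dg) : 0 ≤ x j ∧ x j ≤ 1 := by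
  obtain ⟨w, rfl⟩ := hx
  rw [← co_apply, pt_map]
  have h1 : 0 ≤ pt (fun i => co j (dg i)) w := by
    unfold pt
    refine tsum_nonneg fun n => ?_
    rw [smul_eq_mul]
    exact mul_nonneg (by positivity) (dg_coord _ j).1
  refine ⟨h1, ?_⟩
  have h2 := pt_norm (a := fun i => co j (dg i)) (B := 2) (fun i => by
    rw [Real.norm_eq_abs, co_apply, abs_of_nonneg (dg_coord i j).1]
    exact (dg_coord i j).2) w
  rw [Real.norm_eq_abs, abs_of_nonneg h1] at h2
  norm_num at h2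
  linarith

lemma dg_selfSimilar : IsSelfSimilar (At dg) := by
  refine ⟨Fin 6, inferInstance, inferInstance, fun _ => 1 / 100,
    fun _ => LinearIsometryEquiv.refl ℝ E3, fun i => (1 / 100 : ℝ) • dg i, fun i => by norm_num,
    ?_, At_nonempty dg, At_compact dg, fun x hx i => At_coord i hx, ?_⟩
  · intro i x hx j
    have h1 := hx j
    have h2 := dg_coord i j
    have e : ((1 / 100 : ℝ) • (LinearIsometryEquiv.refl ℝ E3) x + (1 / 100 : ℝ) • dg i) j =
        1 / 100 * x j + 1 / 100 * dg i j := rfl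
    rw [e]
    constructor <;> linarith [h1.1, h1.2, h2.1, h2.2]
  · exact At_self dg

/-- The point with all digits equal to `i`. -/
lemma const_mem (i : Fin 6) : (1 / 99 : ℝ) • dg i ∈ At dg := by
  refine ⟨fun _ => i, ?_⟩
  unfold pt
  have h := (geo_hasSum 1).smul_const (dg i)
  simp only [one_mul] at h
  exact h.tsum_eq

lemma span_top : affineSpan ℝ (At dg) = ⊤ := by
  have h0 : (0 : E3) ∈ affineSpan ℝ (At dg) := by
    have := subset_affineSpan ℝ _ (const_mem 0)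
    have e : (1 / 99 : ℝ) • dg 0 = 0 := by simp [dg]
    rwa [e] at this
  have hv : ∀ i : Fin 6, dg i ∈ (affineSpan ℝ (At dg)).direction := by
    intro i
    have h1 := subset_affineSpan ℝ _ (const_mem i)
    have h2 := AffineSubspace.vsub_mem_direction h1 h0
    rw [vsub_eq_sub, sub_zero] at h2
    have h3 := Submodule.smul_mem _ (99 : ℝ) h2
    rw [smul_smul] at h3
    norm_num at h3
    exact h3
  have hdir : (affineSpan ℝ (At dg)).direction = ⊤ := by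
    rw [eq_top_iff]
    intro x _
    have e : x = x 0 • dg 1 + x 1 • dg 4 + x 2 • dg 5 := by
      ext j
      fin_cases j <;> simp [dg, ee_apply]
    rw [e]
    exact add_mem (add_mem (Submodule.smul_mem _ _ (hv 1)) (Submodule.smul_mem _ _ (hv 4)))
      (Submodule.smul_mem _ _ (hv 5))
  exact (AffineSubspace.direction_eq_top_iff_of_nonempty ⟨0, h0⟩).mp hdir

/-- The directions of projection. -/
def Dir : Set E3 := {n | |n 0| < 1 ∧ 9 / 10 < n 1 ∧ n 1 < 11 / 10 ∧ -21 / 10 < n 2 ∧ n 2 < -19 / 10}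

lemma co_cont (j : Fin 3) : Continuous fun n : E3 => n j := (co j).continuous

lemma Dir_open : IsOpen Dir := by
  unfold Dir
  refine (isOpen_lt (co_cont 0).abs continuous_const).inter
    ((isOpen_lt continuous_const (co_cont 1)).inter ((isOpen_lt (co_cont 1) continuous_const).inter
      ((isOpen_lt continuous_const (co_cont 2)).inter (isOpen_lt (co_cont 2) continuous_const))))

/-- The functional which vanishes on `n` and on the first unit vector. -/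
noncomputable def ff (n : E3) : E3 →L[ℝ] ℝ := -(n 2) • co 1 + (n 1) • co 2

lemma ff_apply (n x : E3) : ff n x = -(n 2) * x 1 + n 1 * x 2 := rfl

/-- The projection along `n`. -/
noncomputable def pr (n : E3) : E3 →L[ℝ] E3 := (ℝ ∙ n)ᗮ.starProjection

lemma pr_apply (n x : E3) : pr n x = x - (inner ℝ n x / ‖n‖ ^ 2) • n := by
  unfold pr
  rw [Submodule.starProjection_orthogonal_val, Submodule.starProjection_singleton]
  simp

lemma ff_pr (n x : E3) : ff n (pr n x) = ff n x := by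
  rw [pr_apply, map_sub, map_smul]
  have : ff n n = 0 := by rw [ff_apply]; ring
  rw [this, smul_zero, sub_zero]

lemma inner_pr (n x : E3) : inner ℝ n (pr n x) = (0 : ℝ) := by
  unfold pr
  have h := Submodule.starProjection_apply_mem (ℝ ∙ n)ᗮ x
  exact (Submodule.mem_orthogonal_singleton_iff_inner_right.mp h)

lemma inner_coord (x y : E3) : inner ℝ x y = x 0 * y 0 + x 1 * y 1 + x 2 * y 2 := by
  rw [PiLp.inner_apply, Fin.sum_univ_three]
  simp only [RCLike.inner_apply, conj_trivial]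
  ring

lemma norm_coord (x : E3) : ‖x‖ ^ 2 = x 0 ^ 2 + x 1 ^ 2 + x 2 ^ 2 := by
  rw [EuclideanSpace.norm_sq_eq, Fin.sum_univ_three]
  simp only [Real.norm_eq_abs, sq_abs]

lemma norm_bound {n y : E3} (hn : n ∈ Dir) (hy : inner ℝ n y = (0 : ℝ)) :
    ‖y‖ ≤ |ff n y| + 2 * |y 0| := by
  obtain ⟨h1, h2, h3, h4, h5⟩ := hn
  rw [inner_coord] at hy
  refine abs_le_of_sq_le_sq' ?_ (by positivity) |>.2
  rw [norm_coord, ff_apply]
  have e : (n 1 ^ 2 + n 2 ^ 2) * (y 1 ^ 2 + y 2 ^ 2) =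
      (-(n 2) * y 1 + n 1 * y 2) ^ 2 + (n 0 * y 0) ^ 2 := by
    have e1 : n 0 * y 0 = -(n 1 * y 1 + n 2 * y 2) := by linarith
    rw [e1]; ring
  have h6 : 4 ≤ n 1 ^ 2 + n 2 ^ 2 := by nlinarith
  have h7 : n 0 ^ 2 ≤ 1 := by
    have := abs_lt.mp h1
    nlinarith [this.1, this.2]
  have h8 : 4 * (y 1 ^ 2 + y 2 ^ 2) ≤ (-(n 2) * y 1 + n 1 * y 2) ^ 2 + (n 0 * y 0) ^ 2 := by
    rw [← e]
    exact mul_le_mul_of_nonneg_right h6 (by positivity)
  have h9 : (n 0 * y 0) ^ 2 ≤ y 0 ^ 2 := by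
    rw [mul_pow]
    exact mul_le_of_le_one_left (by positivity) h7
  obtain ⟨F, hF⟩ : ∃ F, F = -(n 2) * y 1 + n 1 * y 2 := ⟨_, rfl⟩
  rw [← hF] at h8 ⊢
  have h10 : (|F| + 2 * |y 0|) ^ 2 = F ^ 2 + 4 * (|F| * |y 0|) + 4 * y 0 ^ 2 := by
    rw [← sq_abs F, ← sq_abs (y 0)]; ring
  rw [h10]
  have h11 : 0 ≤ |F| * |y 0| := by positivity
  nlinarith [sq_nonneg F, sq_nonneg (y 0)]

lemma ff_bound {n y : E3} (hn : n ∈ Dir) : |ff n y| ≤ 3 * ‖y‖ := by
  obtain ⟨h1, h2, h3, h4, h5⟩ := hn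
  refine abs_le_of_sq_le_sq ?_ (by positivity)
  rw [mul_pow, norm_coord, ff_apply]
  have e : (-(n 2) * y 1 + n 1 * y 2) ^ 2 + (n 1 * y 1 + n 2 * y 2) ^ 2 =
      (n 1 ^ 2 + n 2 ^ 2) * (y 1 ^ 2 + y 2 ^ 2) := by ring
  have h6 : n 1 ^ 2 + n 2 ^ 2 ≤ 9 := by nlinarith
  have h8 : (n 1 ^ 2 + n 2 ^ 2) * (y 1 ^ 2 + y 2 ^ 2) ≤ 9 * (y 1 ^ 2 + y 2 ^ 2) :=
    mul_le_mul_of_nonneg_right h6 (by positivity)
  nlinarith [sq_nonneg (n 1 * y 1 + n 2 * y 2), sq_nonneg (y 0)]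

lemma co_bound (y : E3) : |y 0| ≤ ‖y‖ := by
  refine abs_le_of_sq_le_sq ?_ (norm_nonneg _)
  rw [norm_coord]
  nlinarith [sq_nonneg (y 1), sq_nonneg (y 2)]

lemma main {n : E3} (hn : n ∈ Dir) : dimH (pr n '' At dg) ≤ ((1 / 2 : NNReal) : ℝ≥0∞) ∧
    1 ≤ assouadDim (pr n '' At dg) ∧ assouadDim (pr n '' At dg) ≤ 3 / 2 := by
  rw [At_map]
  obtain ⟨a, ha⟩ : ∃ a : Fin 6 → E3, a = fun i => pr n (dg i) := ⟨_, rfl⟩
  rw [← ha]
  have hinner : ∀ y ∈ At a, inner ℝ n y = (0 : ℝ) := by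
    rintro y hy
    rw [ha, ← At_map] at hy
    obtain ⟨x, -, rfl⟩ := hy
    exact inner_pr n x
  have hmem : (3 / 2 : ℝ) ∈ {s : ℝ | 0 ≤ s ∧ ∃ C : ℝ, 0 < C ∧ ∀ R > 0, ∀ r, 0 < r → r < R →
      ∀ x ∈ At a, CovBy (C * (R / r) ^ s) r (Metric.ball x R ∩ At a)} := by
    refine ⟨by norm_num, 510, by norm_num, fun R _ r hr hrR x hx => ?_⟩
    obtain ⟨h1, h2, h3, h4, h5⟩ := hn
    refine upp (f := ff n) (g := co 0) (β := ![0, -(n 2), n 1]) (κ := ![0, 0, 0, 0, 1, 2])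
      ?_ ?_ ?_ ?_ ?_ ?_ hr hrR hx
    · intro i j hij
      fin_cases i <;> fin_cases j <;> simp at hij ⊢ <;> (rw [le_abs]) <;>
        first | (left; linarith) | (right; linarith)
    · intro i
      rw [Real.norm_eq_abs, abs_le]
      fin_cases i <;> simp <;> first | (constructor <;> linarith) | (norm_num; done)
    · intro i
      rw [ha, ff_pr, ff_apply]
      fin_cases i <;> simp [dg, ee_apply]
    · intro y hy y' hy'
      rw [← map_sub, dist_eq_norm]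
      exact ff_bound ⟨h1, h2, h3, h4, h5⟩
    · intro y hy y' hy'
      rw [← map_sub, dist_eq_norm]
      exact co_bound (y - y')
    · intro y hy y' hy'
      rw [← map_sub, ← map_sub, dist_eq_norm]
      refine norm_bound ⟨h1, h2, h3, h4, h5⟩ ?_
      rw [inner_sub_right, hinner y hy, hinner y' hy', sub_zero]
  refine ⟨dimH_At a, le_csInf ⟨_, hmem⟩ ?_, csInf_le ⟨0, fun s hs => hs.1⟩ hmem⟩
  rintro s ⟨-, C, -, hC⟩
  have hz : pr n (ee 0) ≠ 0 := by
    intro h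
    rw [pr_apply, sub_eq_zero] at h
    have h1 := congrArg (co 1) h
    rw [map_smul, co_apply, co_apply, ee_apply, smul_eq_mul] at h1
    have h2 := congrArg (co 0) h
    rw [map_smul, co_apply, co_apply, ee_apply, smul_eq_mul] at h2
    simp only [if_true, Fin.isValue] at h2
    rw [if_neg (by decide)] at h1
    obtain ⟨-, h3, -⟩ := hn
    rcases mul_eq_zero.mp h1.symm with h4 | h4
    · rw [h4] at h2; norm_num at h2
    · linarith
  refine low (a := a) (z := pr n (ee 0)) hz ?_ ?_ ?_ ?_ hC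
  · rw [ha]; simp [dg]
  · rw [ha]; simp [dg]
  · rw [ha]; simp [dg]
  · rw [ha]
    have e : dg 3 = (1 + al) • ee 0 := rfl
    simp only [e, map_smul]

lemma pr_smul {c : ℝ} (hc : 0 < c) (n : E3) : pr (c • n) = pr n := by
  ext1 x
  rw [pr_apply, pr_apply]
  congr 1
  rw [inner_smul_left, norm_smul, smul_smul, Real.norm_of_nonneg hc.le]
  simp only [conj_trivial]
  congr 1
  rcases eq_or_ne n 0 with h | h
  · rw [h]; simp
  · have : ‖n‖ ≠ 0 := norm_ne_zero_iff.mpr h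
    field_simp

/-- A direction. -/
noncomputable def n0 : E3 := ee 1 - (2 : ℝ) • ee 2

lemma n0_coord : n0 0 = 0 ∧ n0 1 = 1 ∧ n0 2 = -2 := by
  refine ⟨?_, ?_, ?_⟩ <;> simp [n0, ee_apply]

lemma n0_Dir : n0 ∈ Dir := by
  obtain ⟨h1, h2, h3⟩ := n0_coord
  refine ⟨?_, ?_, ?_, ?_, ?_⟩
  · rw [h1]; norm_num
  · rw [h2]; norm_num
  · rw [h2]; norm_num
  · rw [h3]; norm_num
  · rw [h3]; norm_num

theorem final : IsSelfSimilar (At dg) ∧ affineSpan ℝ (At dg) = ⊤ ∧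
    0 < (volume : Measure E3).toSphere {u : Metric.sphere (0 : E3) 1 |
      dimH ((ℝ ∙ (u : E3))ᗮ.starProjection '' At dg) ≤ 1 / 2 ∧
      1 ≤ assouadDim ((ℝ ∙ (u : E3))ᗮ.starProjection '' At dg) ∧
      assouadDim ((ℝ ∙ (u : E3))ᗮ.starProjection '' At dg) ≤ 3 / 2} := by
  refine ⟨dg_selfSimilar, span_top, ?_⟩
  have hO : IsOpen (⋃ c ∈ Ioi (0 : ℝ), {u : Metric.sphere (0 : E3) 1 | c • (u : E3) ∈ Dir}) :=
    isOpen_biUnion fun c _ =>
      Dir_open.preimage ((continuous_const_smul c).comp continuous_subtype_val)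
  have hn0 : ‖n0‖ ≠ 0 := by
    rw [norm_ne_zero_iff]
    intro h
    have h1 := n0_coord.2.1
    rw [h] at h1
    simp at h1
  have hne : (⋃ c ∈ Ioi (0 : ℝ), {u : Metric.sphere (0 : E3) 1 | c • (u : E3) ∈ Dir}).Nonempty := by
    refine ⟨⟨‖n0‖⁻¹ • n0, by
      rw [mem_sphere_zero_iff_norm, norm_smul, norm_inv, norm_norm, inv_mul_cancel₀ hn0]⟩, ?_⟩
    rw [mem_iUnion₂]
    refine ⟨‖n0‖, (norm_nonneg _).lt_of_ne' hn0, ?_⟩
    show ‖n0‖ • (‖n0‖⁻¹ • n0) ∈ Dir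
    rw [smul_smul, mul_inv_cancel₀ hn0, one_smul]
    exact n0_Dir
  refine (hO.measure_pos ((volume : Measure E3).toSphere) hne).trans_le (measure_mono ?_)
  intro u hu
  rw [mem_iUnion₂] at hu
  obtain ⟨c, hc, hu⟩ := hu
  have h := main (n := c • (u : E3)) hu
  rw [pr_smul hc] at h
  obtain ⟨h1, h2, h3⟩ := h
  refine ⟨h1.trans_eq ?_, h2, h3⟩
  norm_num

end Pool.Agent.Q187.PJ
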