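import Mathlib

/-!
# Sets given by digits in base `100`
-/

set_option autoImplicit false

open Set Filter Topology MeasureTheory ENNReal

namespace Pool.Agent.Q187.PJ

variable {X Y : Type} [NormedAddCommGroup X] [NormedSpace ℝ X] [CompleteSpace X]
  [NormedAddCommGroup Y] [NormedSpace ℝ Y] [CompleteSpace Y] {ι : Type} [Fintype ι]

/-- The point with the digits `a (w 0), a (w 1), …`. -/
noncomputable def pt (a : ι → X) (w : ℕ → ι) : X := ∑' n, ((1 / 100 : ℝ)) ^ (n + 1) • a (w n)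

/-- The set of all points. -/
def At (a : ι → X) : Set X := range (pt a)

lemma exists_bound (a : ι → X) : ∃ B : ℝ, 0 < B ∧ ∀ i, ‖a i‖ ≤ B := by
  refine ⟨1 + ∑ i, ‖a i‖, ?_, fun i => ?_⟩
  · have : 0 ≤ ∑ i, ‖a i‖ := Finset.sum_nonneg fun i _ => norm_nonneg _
    linarith
  · have := Finset.single_le_sum (f := fun i => ‖a i‖) (fun i _ => norm_nonneg _)
      (Finset.mem_univ i)
    linarith

lemma term_norm {a : ι → X} {B : ℝ} (hB : ∀ i, ‖a i‖ ≤ B) (w : ℕ → ι) (n : ℕ) :
    ‖((1 / 100 : ℝ)) ^ (n + 1) • a (w n)‖ ≤ B * (1 / 100) ^ (n + 1) := by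
  rw [norm_smul, norm_pow, Real.norm_of_nonneg (by norm_num), mul_comm]
  exact mul_le_mul_of_nonneg_right (hB _) (by positivity)

lemma geo_hasSum (B : ℝ) : HasSum (fun n : ℕ => B * (1 / 100 : ℝ) ^ (n + 1)) (B / 99) := by
  have h := (hasSum_geometric_of_lt_one (r := (1 / 100 : ℝ)) (by norm_num) (by norm_num)).mul_left
    (B / 100)
  have e : B / 100 * (1 - 1 / 100 : ℝ)⁻¹ = B / 99 := by
    norm_num
    ring
  rw [e] at h
  have e2 : (fun n : ℕ => B / 100 * (1 / 100 : ℝ) ^ n) =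
      fun n : ℕ => B * (1 / 100 : ℝ) ^ (n + 1) := by
    funext n
    rw [pow_succ]; ring
  rwa [e2] at h

lemma pt_summable (a : ι → X) (w : ℕ → ι) :
    Summable fun n => ((1 / 100 : ℝ)) ^ (n + 1) • a (w n) := by
  obtain ⟨B, -, hB⟩ := exists_bound a
  exact Summable.of_norm_bounded (geo_hasSum B).summable (term_norm hB w)

lemma pt_norm {a : ι → X} {B : ℝ} (hB : ∀ i, ‖a i‖ ≤ B) (w : ℕ → ι) : ‖pt a w‖ ≤ B / 99 :=
  tsum_of_norm_bounded (geo_hasSum B) (term_norm hB w)

lemma pt_split (a : ι → X) (w : ℕ → ι) (n : ℕ) :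
    pt a w = (∑ i ∈ Finset.range n, ((1 / 100 : ℝ)) ^ (i + 1) • a (w i)) +
      ((1 / 100 : ℝ)) ^ n • pt a (fun i => w (i + n)) := by
  unfold pt
  rw [← (pt_summable a w).sum_add_tsum_nat_add n, ← tsum_const_smul'']
  congr 2
  funext i
  rw [smul_smul]
  congr 1
  ring

lemma pt_dist {a : ι → X} {B : ℝ} (hB : ∀ i, ‖a i‖ ≤ B) {w w' : ℕ → ι} {n : ℕ}
    (h : ∀ i < n, a (w i) = a (w' i)) : ‖pt a w - pt a w'‖ ≤ (1 / 100) ^ n * (2 * B / 99) := by
  rw [pt_split a w n, pt_split a w' n]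
  have e : (∑ i ∈ Finset.range n, (1 / 100 : ℝ) ^ (i + 1) • a (w i)) =
      ∑ i ∈ Finset.range n, (1 / 100 : ℝ) ^ (i + 1) • a (w' i) :=
    Finset.sum_congr rfl fun i hi => by rw [h i (Finset.mem_range.mp hi)]
  rw [e, add_sub_add_left_eq_sub, ← smul_sub, norm_smul, norm_pow,
    Real.norm_of_nonneg (by norm_num)]
  refine mul_le_mul_of_nonneg_left ?_ (by positivity)
  have h1 := pt_norm hB (fun i => w (i + n))
  have h2 := pt_norm hB (fun i => w' (i + n))
  have h3 := norm_sub_le (pt a fun i => w (i + n)) (pt a fun i => w' (i + n))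
  have h4 : 2 * B / 99 = B / 99 + B / 99 := by ring
  linarith

lemma pt_map (L : X →L[ℝ] Y) (a : ι → X) (w : ℕ → ι) :
    L (pt a w) = pt (fun i => L (a i)) w := by
  unfold pt
  rw [L.map_tsum (pt_summable a w)]
  simp only [map_smul]

lemma At_map (L : X →L[ℝ] Y) (a : ι → X) : L '' At a = At (fun i => L (a i)) := by
  unfold At
  rw [← range_comp]
  congr 1
  funext w
  exact pt_map L a w

lemma pt_cont [TopologicalSpace ι] [DiscreteTopology ι] (a : ι → X) : Continuous (pt a) := by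
  obtain ⟨B, -, hB⟩ := exists_bound a
  exact continuous_tsum (fun n => ((continuous_of_discreteTopology (f := a)).comp
    (continuous_apply n)).const_smul _) (geo_hasSum B).summable (fun n w => term_norm hB w n)

lemma At_compact [TopologicalSpace ι] [DiscreteTopology ι] (a : ι → X) : IsCompact (At a) :=
  isCompact_range (pt_cont a)

lemma At_nonempty [Nonempty ι] (a : ι → X) : (At a).Nonempty :=
  ⟨pt a fun _ => Classical.arbitrary ι, mem_range_self _⟩

lemma At_self (a : ι → X) : At a = ⋃ i, (fun x => (1 / 100 : ℝ) • x + (1 / 100 : ℝ) • a i) '' At a := by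
  ext x
  constructor
  · rintro ⟨w, rfl⟩
    rw [mem_iUnion]
    refine ⟨w 0, pt a (fun i => w (i + 1)), mem_range_self _, ?_⟩
    rw [pt_split a w 1]
    simp only [Finset.range_one, Finset.sum_singleton, zero_add, pow_one]
    rw [add_comm]
  · rw [mem_iUnion]
    rintro ⟨i, _, ⟨w, rfl⟩, rfl⟩
    refine ⟨fun n => Nat.casesOn n i w, ?_⟩
    rw [pt_split a _ 1]
    simp only [Finset.range_one, Finset.sum_singleton, zero_add, pow_one]
    rw [add_comm]
    rfl

lemma dimH_At [MeasurableSpace X] [BorelSpace X] (a : Fin 6 → X) :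
    dimH (At a) ≤ ((1 / 2 : NNReal) : ℝ≥0∞) := by
  apply dimH_le_of_hausdorffMeasure_ne_top
  obtain ⟨B, hB0, hB⟩ := exists_bound a
  have hdiam : ∀ (n : ℕ) (c : Fin n → Fin 6),
      Metric.ediam (pt a '' {w | ∀ i : Fin n, w i = c i}) ≤
        ENNReal.ofReal ((1 / 100) ^ n * (2 * B / 99)) := by
    intro n c
    refine Metric.ediam_le ?_
    rintro _ ⟨w, hw, rfl⟩ _ ⟨w', hw', rfl⟩
    rw [edist_dist, dist_eq_norm]
    refine ENNReal.ofReal_le_ofReal (pt_dist hB fun i hi => ?_)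
    rw [hw ⟨i, hi⟩, hw' ⟨i, hi⟩]
  have h := Measure.hausdorffMeasure_le_liminf_sum (β := ℕ) (ι := fun n => Fin n → Fin 6)
    (((1 / 2 : NNReal) : ℝ)) (At a) (l := atTop)
    (fun n => ENNReal.ofReal ((1 / 100) ^ n * (2 * B / 99))) (by
      rw [← ENNReal.ofReal_zero]
      refine ENNReal.tendsto_ofReal ?_
      have := (tendsto_pow_atTop_nhds_zero_of_lt_one (r := (1 / 100 : ℝ)) (by norm_num)
        (by norm_num)).mul_const (2 * B / 99)
      rwa [zero_mul] at this)
    (fun n c => pt a '' {w | ∀ i : Fin n, w i = c i})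
    (Eventually.of_forall hdiam)
    (Eventually.of_forall fun n => by
      rintro _ ⟨w, rfl⟩
      rw [mem_iUnion]
      exact ⟨fun i => w i, w, fun i => rfl, rfl⟩)
  refine ne_top_of_le_ne_top (b := ENNReal.ofReal (Real.sqrt (2 * B / 99))) ENNReal.ofReal_ne_top
    (h.trans ?_)
  refine liminf_le_of_frequently_le' (Frequently.of_forall fun n => ?_)
  have hc : (((1 / 2 : NNReal) : ℝ)) = 1 / 2 := by norm_num
  rw [hc]
  calc ∑ c : Fin n → Fin 6, Metric.ediam (pt a '' {w | ∀ i : Fin n, w i = c i}) ^ (1 / 2 : ℝ)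
      ≤ ∑ c : Fin n → Fin 6, ENNReal.ofReal ((1 / 10) ^ n * Real.sqrt (2 * B / 99)) := by
        refine Finset.sum_le_sum fun c _ => ?_
        refine (ENNReal.rpow_le_rpow (hdiam n c) (by norm_num)).trans ?_
        rw [ENNReal.ofReal_rpow_of_nonneg (by positivity) (by norm_num), ← Real.sqrt_eq_rpow,
          Real.sqrt_mul (by positivity)]
        have e : Real.sqrt ((1 / 100 : ℝ) ^ n) = (1 / 10) ^ n := by
          rw [show (1 / 100 : ℝ) ^ n = ((1 / 10) ^ n) ^ 2 by
            rw [← pow_mul, mul_comm n 2, pow_mul]; norm_num]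
          exact Real.sqrt_sq (by positivity)
        rw [e]
    _ = ENNReal.ofReal (6 ^ n * ((1 / 10) ^ n * Real.sqrt (2 * B / 99))) := by
        rw [Finset.sum_const, Finset.card_univ, Fintype.card_fun, Fintype.card_fin,
          Fintype.card_fin, nsmul_eq_mul, ENNReal.ofReal_mul (by positivity)]
        congr 1
        rw [ENNReal.ofReal_pow (by norm_num)]
        push_cast
        norm_num
    _ ≤ ENNReal.ofReal (Real.sqrt (2 * B / 99)) := by
        apply ENNReal.ofReal_le_ofReal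
        rw [← mul_assoc, ← mul_pow]
        have h1 : (6 * (1 / 10) : ℝ) ^ n ≤ 1 := pow_le_one₀ (by norm_num) (by norm_num)
        have h2 := Real.sqrt_nonneg (2 * B / 99)
        nlinarith

end Pool.Agent.Q187.PJ
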